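import Mathlib

/-!
# Kalorkoti's measure (project KAL/SF, MP_c2aa42_lc)
-/

set_option autoImplicit false

namespace Pool.Agent.Helper72.SF

open MvPolynomial

/-- There are polynomials `G` not involving the variables in `B`, no `ρ + 1` of them algebraically
independent, such that `f` is a polynomial in the variables in `B` and in the members of `G`. -/
def KB {n : ℕ} (B : Finset (Fin n)) (ρ : ℕ) (f : MvPolynomial (Fin n) ℂ) : Prop :=
  ∃ G : Finset (MvPolynomial (Fin n) ℂ), (∀ g ∈ G, g ∈ supported ℂ ((B : Set (Fin n))ᶜ)) ∧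
    f ∈ Algebra.adjoin ℂ (X '' (B : Set (Fin n)) ∪ (G : Set (MvPolynomial (Fin n) ℂ))) ∧
    ∀ T : Finset (MvPolynomial (Fin n) ℂ), T ⊆ G →
      AlgebraicIndependent ℂ (fun g : T => (g : MvPolynomial (Fin n) ℂ)) → T.card ≤ ρ

/-- The variables of the generator: `z_1, …, z_q`, `y_0, …, y_t`, `u_0, …, u_t`. -/
abbrev GVar (q t : ℕ) : Type := Fin q ⊕ (Fin (t + 1) ⊕ Fin (t + 1))

/-- The generator: `x_i = u_b + ∑_k z_k (i y_b)^k`, `b = blk i`. -/
noncomputable def gen {n q t : ℕ} (blk : Fin n → Fin (t + 1)) (i : Fin n) :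
    MvPolynomial (GVar q t) ℂ :=
  X (Sum.inr (Sum.inr (blk i))) + ∑ k : Fin q, C ((((i : ℕ) : ℂ) + 1) ^ ((k : ℕ) + 1)) *
    X (Sum.inl k) * X (Sum.inr (Sum.inl (blk i))) ^ ((k : ℕ) + 1)

end Pool.Agent.Helper72.SF
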