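import Mathlib

/-!
# Kernel vectors over a domain
-/

set_option autoImplicit false

namespace Pool.Agent.Helper72.SF

theorem exists_ker {S : Type} [CommRing S] [IsDomain S] {N ρ ℓ : ℕ} {κ : Type} [Finite κ]
    (w : κ → Fin N → S)
    (hw : ∀ T : Finset κ, LinearIndependent S (fun t : T => w t) → T.card ≤ ρ)
    (h : ρ + ℓ ≤ N) :
    ∃ v : Fin ℓ → Fin N → S, LinearIndependent S v ∧ ∀ a t, ∑ k, v a k * w t k = 0 := by
  classical
  let K := FractionRing S
  let wK : κ → Fin N → K := fun t k => algebraMap S K (w t k)
  obtain ⟨κ', a, ha, hspan, hlin⟩ := exists_linearIndependent' K wK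
  have : Finite κ' := Finite.of_injective a ha
  have : Fintype κ' := Fintype.ofFinite κ'
  have hinj : Function.Injective (algebraMap S K) := IsFractionRing.injective S K
  have hcard : Fintype.card κ' ≤ ρ := by
    let T : Finset κ := Finset.univ.image a
    have h1 : LinearIndependent S (fun t : T => w t) := by
      have h2 : LinearIndependent S (w ∘ a) := by
        rw [Fintype.linearIndependent_iff] at hlin ⊢
        intro g hg i
        have h3 := hlin (fun i => algebraMap S K (g i)) (by
          funext k
          have h4 := congrArg (algebraMap S K) (congrFun hg k)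
          simp only [Finset.sum_apply, Pi.smul_apply, smul_eq_mul, map_sum, map_mul,
            Pi.zero_apply, map_zero, Function.comp] at h4 ⊢
          exact h4) i
        exact hinj (by rw [h3, map_zero])
      let e : κ' ≃ T := (Equiv.ofInjective a ha).trans
        (Equiv.subtypeEquivRight (fun x => by simp [T]))
      have h5 : (fun t : T => w t) ∘ e = w ∘ a := by
        funext i
        rfl
      rw [← linearIndependent_equiv e, h5]
      exact h2
    have h6 := hw T h1
    rw [Finset.card_image_of_injective _ ha, Finset.card_univ] at h6
    exact h6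
  let φ : (Fin N → K) →ₗ[K] (κ' → K) := Matrix.mulVecLin (Matrix.of fun i k => wK (a i) k)
  have hker : ℓ ≤ Module.finrank K (LinearMap.ker φ) := by
    have h1 := LinearMap.finrank_range_add_finrank_ker φ
    have h2 := Submodule.finrank_le (LinearMap.range φ)
    rw [Module.finrank_fintype_fun_eq_card] at h1 h2
    rw [Fintype.card_fin] at h1
    omega
  obtain ⟨f, hf⟩ := exists_linearIndependent_of_le_finrank hker
  have hf' : LinearIndependent K (fun i => (f i : Fin N → K)) :=
    hf.map' (LinearMap.ker φ).subtype (Submodule.ker_subtype _)
  have hkill : ∀ i t, ∑ k, (f i : Fin N → K) k * wK t k = 0 := by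
    intro i t
    let ψ : (Fin N → K) →ₗ[K] K :=
      { toFun := fun x => ∑ k, (f i : Fin N → K) k * x k
        map_add' := by
          intro x y
          simp only [Pi.add_apply, mul_add, Finset.sum_add_distrib]
        map_smul' := by
          intro c x
          simp only [Pi.smul_apply, smul_eq_mul, RingHom.id_apply]
          rw [Finset.mul_sum]
          exact Finset.sum_congr rfl fun k _ => by ring }
    have h1 : Submodule.span K (Set.range wK) ≤ LinearMap.ker ψ := by
      rw [← hspan, Submodule.span_le]
      rintro _ ⟨j, rfl⟩
      have h2 : φ (f i : Fin N → K) = 0 := (f i).2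
      have h3 := congrFun h2 j
      simp only [φ, Matrix.mulVecLin_apply, Matrix.mulVec, dotProduct, Matrix.of_apply,
        Pi.zero_apply] at h3
      change ∑ k, (f i : Fin N → K) k * wK (a j) k = 0
      rw [← h3]
      exact Finset.sum_congr rfl fun k _ => mul_comm _ _
    exact h1 (Submodule.subset_span ⟨t, rfl⟩)
  have hden := fun i => IsLocalization.exist_integer_multiples_of_finite (nonZeroDivisors S)
    (fun k => (f i : Fin N → K) k)
  choose b hb using hden
  choose v hv using hb
  refine ⟨v, ?_, ?_⟩
  · rw [Fintype.linearIndependent_iff]
    intro g hg i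
    have h1 := Fintype.linearIndependent_iff.1 hf' (fun i => algebraMap S K (g i * b i)) (by
      funext k
      have h4 := congrArg (algebraMap S K) (congrFun hg k)
      simp only [Finset.sum_apply, Pi.smul_apply, smul_eq_mul, map_sum, map_mul,
        Pi.zero_apply, map_zero] at h4 ⊢
      rw [← h4]
      refine Finset.sum_congr rfl fun j _ => ?_
      rw [hv j k, Algebra.smul_def]
      ring) i
    have h2 : g i * b i = 0 := hinj (by rw [h1, map_zero])
    exact (mul_eq_zero.1 h2).resolve_right (nonZeroDivisors.ne_zero (b i).2)
  · intro i t
    apply hinj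
    rw [map_sum, map_zero]
    have h1 := congrArg (fun x => algebraMap S K (b i) * x) (hkill i t)
    simp only [mul_zero] at h1
    rw [← h1, Finset.mul_sum]
    refine Finset.sum_congr rfl fun k _ => ?_
    rw [map_mul, hv i k, Algebra.smul_def]
    simp only [wK]
    ring

end Pool.Agent.Helper72.SF
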