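import Pool.Agent.Helper72.SF.Jac
import Pool.Agent.Helper72.SF.Ker
import Pool.Agent.Helper72.SF.KB

/-!
# Kalorkoti's measure bounds the rank of the gradients of the coefficients
-/

set_option autoImplicit false

namespace Pool.Agent.Helper72.SF

open MvPolynomial

theorem algInd_of_grad {S : Type} [CommRing S] [IsDomain S] [Algebra ℂ S] {N : ℕ} {ι : Type}
    [Fintype ι] [DecidableEq ι] (δ : Fin N → Derivation ℂ S S) (c : ι → S)
    (h : LinearIndependent S (fun t => fun k => δ k (c t))) : AlgebraicIndependent ℂ c := by
  rw [algebraicIndependent_iff]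
  have key : ∀ (m : ℕ) (g : MvPolynomial ι ℂ), aeval c g = 0 →
      (∀ β : ι →₀ ℕ, m < β.degree → g.coeff β = 0) → g = 0 := by
    have hbase : ∀ g : MvPolynomial ι ℂ, aeval c g = 0 →
        (∀ β : ι →₀ ℕ, 0 < β.degree → g.coeff β = 0) → g = 0 := by
      intro g h h0
      have h1 : g = C (g.coeff 0) := by
        ext β
        rw [coeff_C]
        split_ifs with hβ
        · rw [hβ]
        · apply h0
          rw [Nat.pos_iff_ne_zero]
          intro hc
          exact hβ ((Finsupp.degree_eq_zero_iff β).1 hc).symm
      rw [h1, aeval_C] at h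
      rw [h1]
      have h2 : g.coeff 0 = 0 := by
        have hinj : Function.Injective (algebraMap ℂ S) := (algebraMap ℂ S).injective
        exact hinj (by rw [h, map_zero])
      rw [h2, C_0]
    intro m
    induction m with
    | zero => exact hbase
    | succ m ih =>
      intro g hg h0
      have hw : ∀ t, aeval c (pderiv t g) = 0 := by
        refine Fintype.linearIndependent_iff.1 h (fun t => aeval c (pderiv t g)) ?_
        funext k
        have h1 := chainR (δ k) c g
        rw [hg, map_zero] at h1
        simp only [Finset.sum_apply, Pi.smul_apply, smul_eq_mul, Pi.zero_apply]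
        exact h1.symm
      have hp : ∀ i, pderiv i g = 0 := by
        intro i
        apply ih _ (hw i)
        intro β hβ
        rw [coeff_pderiv, h0, zero_mul]
        rw [map_add, Finsupp.degree_single]
        omega
      refine hbase g hg ?_
      intro β hβ
      have hne : β ≠ 0 := by
        rintro rfl
        simp at hβ
      obtain ⟨i, hi⟩ := Finsupp.ne_iff.1 hne
      have hi' : Finsupp.single i 1 ≤ β := by
        rw [Finsupp.single_le_iff]
        exact Nat.one_le_iff_ne_zero.2 hi
      have h2 := coeff_pderiv g (i := i) (β - Finsupp.single i 1)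
      rw [hp i, coeff_zero, tsub_add_cancel_of_le hi'] at h2
      have h3 : (((β - Finsupp.single i 1 : ι →₀ ℕ) i : ℂ) + 1) ≠ 0 :=
        Nat.cast_add_one_ne_zero _
      exact (mul_eq_zero.1 h2.symm).resolve_right h3
  intro g hg
  refine key g.totalDegree g hg ?_
  intro β hβ
  by_contra hc
  have h1 := le_totalDegree (mem_support_iff.2 hc)
  have h2 : β.degree = β.sum fun _ e => e := by
    rw [Finsupp.degree_eq_sum, Finsupp.sum_fintype _ _ (by simp)]
  omega

/-- the polynomial `f` with the values `y i` for the variables outside `B` -/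
noncomputable def part {n : ℕ} {S : Type} [CommRing S] [Algebra ℂ S] (B : Finset (Fin n))
    (y : Fin n → S) : MvPolynomial (Fin n) ℂ →ₐ[ℂ] MvPolynomial B S :=
  aeval (fun i => if h : i ∈ B then X ⟨i, h⟩ else C (y i))

theorem part_X {n : ℕ} {S : Type} [CommRing S] [Algebra ℂ S] {B : Finset (Fin n)}
    {y : Fin n → S} {i : Fin n} (h : i ∈ B) : part B y (X i) = X ⟨i, h⟩ := by
  rw [part, aeval_X, dif_pos h]

theorem part_of_supported {n : ℕ} {S : Type} [CommRing S] [Algebra ℂ S] {B : Finset (Fin n)}
    {y : Fin n → S} {g : MvPolynomial (Fin n) ℂ} (h : g ∈ supported ℂ ((B : Set (Fin n))ᶜ)) :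
    part B y g = C (aeval y g) := by
  rw [supported_eq_adjoin_X] at h
  induction h using Algebra.adjoin_induction with
  | mem x hx =>
    obtain ⟨i, hi, rfl⟩ := hx
    rw [part, aeval_X, aeval_X, dif_neg (by simpa using hi)]
  | algebraMap r =>
    rw [AlgHom.commutes, AlgHom.commutes]
    rfl
  | add x y _ _ hx hy => rw [map_add, map_add, hx, hy, C_add]
  | mul x y _ _ hx hy => rw [map_mul, map_mul, hx, hy, C_mul]

theorem KB.ker {n : ℕ} {B : Finset (Fin n)} {ρ : ℕ} {f : MvPolynomial (Fin n) ℂ} (h : KB B ρ f)
    {S : Type} [CommRing S] [IsDomain S] [Algebra ℂ S] {N ℓ : ℕ} (hN : ρ + ℓ ≤ N)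
    (δ : Fin N → Derivation ℂ S S) (y : Fin n → S) :
    ∃ v : Fin ℓ → Fin N → S, LinearIndependent S v ∧
      ∀ a β, ∑ k, v a k * δ k ((part B y f).coeff β) = 0 := by
  classical
  obtain ⟨G, hG, hf, hρ⟩ := h
  obtain ⟨v, hv, hv0⟩ := exists_ker (κ := G) (ρ := ρ) (ℓ := ℓ)
    (fun g k => δ k (aeval y (g : MvPolynomial (Fin n) ℂ))) (by
      intro T hT
      have h1 : AlgebraicIndependent ℂ (fun t : T => aeval y (t : MvPolynomial (Fin n) ℂ)) :=
        algInd_of_grad δ _ hT
      have h2 : AlgebraicIndependent ℂ (fun t : T => ((t : G) : MvPolynomial (Fin n) ℂ)) :=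
        AlgebraicIndependent.of_comp (aeval y) h1
      let T' : Finset (MvPolynomial (Fin n) ℂ) := T.map (Function.Embedding.subtype _)
      have h3 := hρ T' (by
        intro x hx
        obtain ⟨g, _, rfl⟩ := Finset.mem_map.1 hx
        exact g.2) (by
        let e : T' ≃ T := (Equiv.ofBijective (fun t : T => (⟨t, by
          exact Finset.mem_map.2 ⟨t, t.2, rfl⟩⟩ : T')) (by
            constructor
            · intro a b hab
              exact Subtype.ext (Subtype.ext (congrArg (fun x : T' => x.1) hab))
            · rintro ⟨x, hx⟩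
              obtain ⟨g, hg, rfl⟩ := Finset.mem_map.1 hx
              exact ⟨⟨g, hg⟩, rfl⟩)).symm
        have h4 : (fun g : T' => (g : MvPolynomial (Fin n) ℂ)) =
            (fun t : T => ((t : G) : MvPolynomial (Fin n) ℂ)) ∘ e := by
          funext x
          obtain ⟨t, rfl⟩ := e.symm.surjective x
          rw [Function.comp, Equiv.apply_symm_apply]
          rfl
        rw [h4]
        exact h2.comp e e.injective)
      rwa [Finset.card_map] at h3) hN
  refine ⟨v, hv, ?_⟩
  intro a
  let D : Derivation ℂ S S := ∑ k, v a k • δ k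
  have hD : ∀ s, D s = ∑ k, v a k * δ k s := by
    intro s
    have h1 : ∀ T : Finset (Fin N), (∑ k ∈ T, v a k • δ k) s = ∑ k ∈ T, v a k * δ k s := by
      intro T
      induction T using Finset.induction_on with
      | empty => simp
      | insert k T hk ih => rw [Finset.sum_insert hk, Finset.sum_insert hk, Derivation.add_apply,
          ih, Derivation.smul_apply, smul_eq_mul]
    exact h1 Finset.univ
  have key : ∀ β, D ((part B y f).coeff β) = 0 := by
    induction hf using Algebra.adjoin_induction with
    | mem x hx =>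
      intro β
      rcases hx with ⟨i, hi, rfl⟩ | hx
      · rw [part_X (by simpa using hi), coeff_X]
        split_ifs <;> simp
      · rw [part_of_supported (hG x hx), coeff_C]
        split_ifs
        · rw [hD]
          exact hv0 a ⟨x, hx⟩
        · simp
    | algebraMap r =>
      intro β
      rw [AlgHom.commutes, MvPolynomial.algebraMap_apply, coeff_C]
      split_ifs
      · exact D.map_algebraMap r
      · simp
    | add x y _ _ hx hy =>
      intro β
      rw [map_add, coeff_add, map_add, hx, hy, add_zero]
    | mul x y _ _ hx hy =>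
      intro β
      rw [map_mul, coeff_mul, map_sum]
      refine Finset.sum_eq_zero fun p _ => ?_
      rw [D.leibniz, hx, hy, smul_zero, smul_zero, add_zero]
  intro β
  rw [← hD]
  exact key β

end Pool.Agent.Helper72.SF
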