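import Mathlib

/-!
# The Jacobian step
-/

set_option autoImplicit false

namespace Pool.Agent.Helper72.SF

open MvPolynomial

section

variable {S : Type} [CommRing S] {ι : Type} [Fintype ι] [DecidableEq ι]

theorem chainR {R : Type} [CommRing R] [Algebra R S] (D : Derivation R S S) (Y : ι → S)
    (h : MvPolynomial ι R) :
    D (aeval Y h) = ∑ i, aeval Y (pderiv i h) * D (Y i) := by
  induction h using MvPolynomial.induction_on with
  | C a =>
    rw [aeval_C, D.map_algebraMap]
    simp
  | add p q hp hq =>
    simp only [map_add, hp, hq, add_mul, Finset.sum_add_distrib]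
  | mul_X p j hp =>
    rw [map_mul, aeval_X, D.leibniz, hp]
    simp only [pderiv_mul, pderiv_X, map_add, map_mul, aeval_X, smul_eq_mul, add_mul,
      Finset.sum_add_distrib]
    have h1 : ∑ i, aeval Y p * aeval Y (Pi.single (M := fun _ => MvPolynomial ι R) i 1 j) * D (Y i) =
        aeval Y p * D (Y j) := by
      rw [Finset.sum_eq_single j]
      · simp
      · intro i _ hij
        rw [Pi.single_eq_of_ne (Ne.symm hij)]
        simp
      · simp
    rw [h1, Finset.mul_sum]
    rw [add_comm]
    congr 1
    refine Finset.sum_congr rfl fun i _ => ?_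
    ring

/-- chain rule for polynomials whose coefficients are killed by `D` -/
theorem chain (D : Derivation ℤ S S) (Y : ι → S) (g : MvPolynomial ι S)
    (hg : ∀ β, D (g.coeff β) = 0) :
    D (aeval Y g) = ∑ i, aeval Y (pderiv i g) * D (Y i) := by
  have hmon : ∀ (β : ι →₀ ℕ) (c : S), D c = 0 →
      D (aeval Y (monomial β c)) = ∑ i, aeval Y (pderiv i (monomial β c)) * D (Y i) := by
    intro β c hc
    have h1 := chainR D Y (monomial β (1 : ℤ))
    rw [aeval_monomial] at h1
    simp only [map_one, one_mul] at h1
    rw [aeval_monomial, D.leibniz, h1, Algebra.algebraMap_self, RingHom.id_apply, hc, smul_zero,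
      add_zero, smul_eq_mul, Finset.mul_sum]
    refine Finset.sum_congr rfl fun i _ => ?_
    simp only [pderiv_monomial, aeval_monomial, map_mul, one_mul, map_natCast,
      Algebra.algebraMap_self, RingHom.id_apply]
    ring
  conv_lhs => rw [← g.support_sum_monomial_coeff]
  rw [map_sum, map_sum]
  conv_rhs =>
    enter [2, i]
    rw [← g.support_sum_monomial_coeff, map_sum, map_sum, Finset.sum_mul]
  rw [Finset.sum_comm]
  exact Finset.sum_congr rfl fun β _ => hmon β _ (hg β)

theorem jac [IsDomain S] [CharZero S] (D : ι → Derivation ℤ S S) (Y : ι → S)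
    (hdet : (Matrix.of fun a i => D a (Y i)).det ≠ 0) (g : MvPolynomial ι S)
    (hg : ∀ a β, D a (g.coeff β) = 0) (h : aeval Y g = 0) : g = 0 := by
  have key : ∀ (m : ℕ) (g : MvPolynomial ι S), (∀ a β, D a (g.coeff β) = 0) → aeval Y g = 0 →
      (∀ β : ι →₀ ℕ, m < β.degree → g.coeff β = 0) → g = 0 := by
    intro m
    induction m with
    | zero =>
      intro g _ h h0
      have h1 : g = C (g.coeff 0) := by
        ext β
        rw [coeff_C]
        split_ifs with hβ
        · rw [hβ]
        · apply h0
          rw [Nat.pos_iff_ne_zero]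
          intro hc
          exact hβ ((Finsupp.degree_eq_zero_iff β).1 hc).symm
      rw [h1, aeval_C] at h
      rw [h1]
      have h2 : g.coeff 0 = 0 := h
      rw [h2, C_0]
    | succ m ih =>
      intro g hg h h0
      have hw : (Matrix.of fun a i => D a (Y i)).mulVec (fun i => aeval Y (pderiv i g)) = 0 := by
        funext a
        have h1 := chain (D a) Y g (hg a)
        rw [h, map_zero] at h1
        simp only [Matrix.mulVec, dotProduct, Matrix.of_apply, Pi.zero_apply]
        rw [h1]
        exact Finset.sum_congr rfl fun i _ => mul_comm _ _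
      have hw0 := Matrix.eq_zero_of_mulVec_eq_zero hdet hw
      have hp : ∀ i, pderiv i g = 0 := by
        intro i
        apply ih
        · intro a β
          rw [coeff_pderiv, (D a).leibniz, hg a]
          have : D a ((β i : S) + 1) = 0 := by
            rw [map_add, Derivation.map_natCast, Derivation.map_one_eq_zero, add_zero]
          rw [this]
          simp
        · exact congrFun hw0 i
        · intro β hβ
          rw [coeff_pderiv, h0, zero_mul]
          rw [map_add, Finsupp.degree_single]
          omega
      have h1 : ∀ β : ι →₀ ℕ, 0 < β.degree → g.coeff β = 0 := by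
        intro β hβ
        have hne : β ≠ 0 := by
          rintro rfl
          simp at hβ
        obtain ⟨i, hi⟩ := Finsupp.ne_iff.1 hne
        have hi' : Finsupp.single i 1 ≤ β := by
          rw [Finsupp.single_le_iff]
          exact Nat.one_le_iff_ne_zero.2 hi
        have h2 := coeff_pderiv g (i := i) (β - Finsupp.single i 1)
        rw [hp i, coeff_zero, tsub_add_cancel_of_le hi'] at h2
        have h3 : (((β - Finsupp.single i 1 : ι →₀ ℕ) i : S) + 1) ≠ 0 :=
          Nat.cast_add_one_ne_zero _
        exact (mul_eq_zero.1 h2.symm).resolve_right h3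
      have h2 : g = C (g.coeff 0) := by
        ext β
        rw [coeff_C]
        split_ifs with hβ
        · rw [hβ]
        · apply h1
          rw [Nat.pos_iff_ne_zero]
          intro hc
          exact hβ ((Finsupp.degree_eq_zero_iff β).1 hc).symm
      rw [h2, aeval_C] at h
      rw [h2]
      have h3 : g.coeff 0 = 0 := h
      rw [h3, C_0]
  refine key g.totalDegree g hg h ?_
  intro β hβ
  by_contra hc
  have h1 := le_totalDegree (mem_support_iff.2 hc)
  have h2 : β.degree = β.sum fun _ e => e := by
    rw [Finsupp.degree_eq_sum, Finsupp.sum_fintype _ _ (by simp)]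
  omega

end

end Pool.Agent.Helper72.SF
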