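import Mathlib

/-!
# A nonsingular matrix

`det (Q_a (c_i X)) ≠ 0` for linearly independent polynomials `Q_a` and distinct positive integers
`c_i`: polynomials of distinct degrees and Descartes' rule of signs.
-/

set_option autoImplicit false

namespace Pool.Agent.Helper72.SF

open Polynomial

theorem signVariations_lt_card (P : ℝ[X]) (hP : P ≠ 0) : P.signVariations < P.support.card := by
  induction h : P.support.card generalizing P with
  | zero => exact absurd (Polynomial.card_support_eq_zero.1 h) hP
  | succ m ih =>
    by_cases hE : P.eraseLead = 0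
    · have h1 := P.eraseLead_add_monomial_natDegree_leadingCoeff
      rw [hE, zero_add] at h1
      rw [← h1, signVariations_monomial]
      omega
    · have h2 : P.eraseLead.support.card = m := by
        have := Polynomial.card_support_eraseLead_add_one hP
        omega
      have h3 := ih P.eraseLead hE h2
      have h4 := signVariations_le_eraseLead_succ P
      omega

theorem descartes (P : ℝ[X]) (T : Finset ℝ) (hT : ∀ c ∈ T, 0 < c) (h0 : ∀ c ∈ T, P.eval c = 0)
    (hc : P.support.card ≤ T.card) : P = 0 := by
  by_contra hP
  have h1 := signVariations_lt_card P hP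
  have h2 := P.roots_countP_pos_le_signVariations
  have h3 : T.card ≤ P.roots.countP (0 < ·) := by
    have h4 : T.val ≤ P.roots.filter (0 < ·) := by
      rw [Multiset.le_iff_subset T.nodup]
      intro c hcT
      rw [Multiset.mem_filter]
      exact ⟨(mem_roots hP).2 (h0 c hcT), hT c hcT⟩
    rw [Multiset.countP_eq_card_filter]
    exact Multiset.card_le_card h4
  omega

/-- generalized Vandermonde matrix with integer nodes -/
theorem gvand_ne_zero {κ : Type} [Fintype κ] [DecidableEq κ] (e c : κ → ℕ)
    (he : Function.Injective e) (hc : Function.Injective c) (hpos : ∀ i, 0 < c i) :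
    (Matrix.of fun i k : κ => (c i : ℤ) ^ e k).det ≠ 0 := by
  have hR : (Matrix.of fun i k : κ => (c i : ℝ) ^ e k).det ≠ 0 := by
    intro h0
    obtain ⟨w, hw, hw0⟩ := Matrix.exists_mulVec_eq_zero_iff.2 h0
    apply hw
    let P : ℝ[X] := ∑ k, monomial (e k) (w k)
    have hcoeff : ∀ k, P.coeff (e k) = w k := by
      intro k
      simp only [P, finsetSum_coeff, coeff_monomial]
      rw [Finset.sum_eq_single k]
      · simp
      · intro k' _ hk'
        rw [if_neg]
        exact fun h => hk' (he h)
      · simp
    have hP : P = 0 := by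
      refine descartes P (Finset.univ.image fun i => (c i : ℝ)) ?_ ?_ ?_
      · intro x hx
        obtain ⟨i, _, rfl⟩ := Finset.mem_image.1 hx
        exact_mod_cast hpos i
      · intro x hx
        obtain ⟨i, _, rfl⟩ := Finset.mem_image.1 hx
        have h1 := congrFun hw0 i
        simp only [Matrix.mulVec, dotProduct, Matrix.of_apply, Pi.zero_apply] at h1
        simp only [P, eval_finsetSum, eval_monomial]
        rw [← h1]
        exact Finset.sum_congr rfl fun k _ => mul_comm _ _
      · rw [Finset.card_image_of_injective _ (fun a b h => hc (by exact_mod_cast h))]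
        have h1 : P.support ⊆ Finset.univ.image e := by
          intro x hx
          by_contra hcon
          apply (mem_support_iff.1 hx)
          simp only [P, finsetSum_coeff, coeff_monomial]
          refine Finset.sum_eq_zero fun k _ => ?_
          rw [if_neg]
          intro h2
          exact hcon (Finset.mem_image.2 ⟨k, Finset.mem_univ _, h2⟩)
        exact (Finset.card_le_card h1).trans Finset.card_image_le
    funext k
    rw [← hcoeff k, hP]
    simp
  intro h0
  apply hR
  have h1 : (Matrix.of fun i k : κ => (c i : ℝ) ^ e k) =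
      (Int.castRingHom ℝ).mapMatrix (Matrix.of fun i k : κ => (c i : ℤ) ^ e k) := by
    ext i k
    simp
  rw [h1, ← RingHom.map_det, h0, map_zero]

theorem descartesK {K : Type} [Field K] [CharZero K] (P : K[X]) (T : Finset ℕ)
    (hT : ∀ c ∈ T, 0 < c) (h0 : ∀ c ∈ T, P.eval (c : K) = 0) (hc : P.support.card ≤ T.card) :
    P = 0 := by
  obtain ⟨T', hT', hcard⟩ := Finset.exists_subset_card_eq hc
  let e : P.support ≃ T' := Finset.equivOfCardEq hcard.symm
  have hd := gvand_ne_zero (κ := P.support) (fun k => (k : ℕ)) (fun k => ((e k : T') : ℕ))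
    Subtype.val_injective (fun a b h => e.injective (Subtype.ext h))
    (fun k => hT _ (hT' (e k).2))
  have hdK : (Matrix.of fun i k : P.support => (((e i : T') : ℕ) : K) ^ (k : ℕ)).det ≠ 0 := by
    have h1 : (Matrix.of fun i k : P.support => (((e i : T') : ℕ) : K) ^ (k : ℕ)) =
        (Int.castRingHom K).mapMatrix
          (Matrix.of fun i k : P.support => (((e i : T') : ℕ) : ℤ) ^ (k : ℕ)) := by
      ext i k
      simp
    rw [h1, ← RingHom.map_det]
    intro h2
    rw [eq_intCast, Int.cast_eq_zero] at h2
    exact hd h2
  have hw : (Matrix.of fun i k : P.support => (((e i : T') : ℕ) : K) ^ (k : ℕ)).mulVec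
      (fun k => P.coeff k) = 0 := by
    funext i
    have h1 := h0 _ (hT' (e i).2)
    rw [eval_eq_sum, sum_def, ← Finset.sum_coe_sort] at h1
    simp only [Matrix.mulVec, dotProduct, Matrix.of_apply, Pi.zero_apply]
    rw [← h1]
    exact Finset.sum_congr rfl fun k _ => mul_comm _ _
  have hz := Matrix.eq_zero_of_mulVec_eq_zero hdK hw
  by_contra hP
  obtain ⟨k, hk⟩ := Polynomial.nonempty_support_iff.2 hP
  exact (mem_support_iff.1 hk) (congrFun hz ⟨k, hk⟩)

theorem det_scale_ne_zero {K : Type} [Field K] [CharZero K] {κ : Type} [Fintype κ]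
    [DecidableEq κ] (Q : κ → K[X]) (hQ : LinearIndependent K Q) (c : κ → ℕ)
    (hc : Function.Injective c) (hpos : ∀ i, 0 < c i) :
    (Matrix.of fun a i => (Q a).comp (C (c i : K) * X)).det ≠ 0 := by
  intro h0
  obtain ⟨b, hb, hb0⟩ := Matrix.exists_vecMul_eq_zero_iff.2 h0
  let P : ℕ → K[X] := fun e => ∑ a, (b a).coeff e • Q a
  have hPne : ∃ e, P e ≠ 0 := by
    by_contra hcon
    push Not at hcon
    apply hb
    funext a
    ext e
    have h1 := Fintype.linearIndependent_iff.1 hQ (fun a => (b a).coeff e) (hcon e) a
    simpa using h1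
  have hfin : ∀ e, P e ≠ 0 → e ∈ Finset.univ.biUnion fun a => (b a).support := by
    intro e he
    by_contra hcon
    apply he
    refine Finset.sum_eq_zero fun a _ => ?_
    have h1 : (b a).coeff e = 0 := by
      by_contra h2
      exact hcon (Finset.mem_biUnion.2 ⟨a, Finset.mem_univ _, mem_support_iff.2 h2⟩)
    rw [h1, zero_smul]
  classical
  let E : Finset ℕ := (Finset.univ.biUnion fun a => (b a).support).filter fun e => P e ≠ 0
  have hE : E.Nonempty := by
    obtain ⟨e, he⟩ := hPne
    exact ⟨e, Finset.mem_filter.2 ⟨hfin e he, he⟩⟩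
  obtain ⟨e0, he0, hmax⟩ := E.exists_max_image (fun e => e + (P e).natDegree) hE
  set D := e0 + (P e0).natDegree with hD
  have hle : ∀ e, P e ≠ 0 → e + (P e).natDegree ≤ D :=
    fun e he => hmax e (Finset.mem_filter.2 ⟨hfin e he, he⟩)
  let Z : K[X] := ∑ k ∈ Finset.range (D + 1), monomial k ((P (D - k)).coeff k)
  have hZc : ∀ k, k ≤ D → Z.coeff k = (P (D - k)).coeff k := by
    intro k hk
    simp only [Z, finsetSum_coeff, coeff_monomial]
    rw [Finset.sum_eq_single k]
    · simp
    · intro k' _ hk'
      rw [if_neg hk']
    · intro h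
      exact absurd (Finset.mem_range.2 (by omega)) h
  have hZc' : ∀ k, ¬ k ≤ D → Z.coeff k = 0 := by
    intro k hk
    simp only [Z, finsetSum_coeff, coeff_monomial]
    refine Finset.sum_eq_zero fun k' hk' => ?_
    rw [if_neg]
    intro h
    rw [Finset.mem_range] at hk'
    omega
  have hZne : Z ≠ 0 := by
    intro h
    have h1 := hZc (P e0).natDegree (by omega)
    rw [h, coeff_zero, show D - (P e0).natDegree = e0 by omega] at h1
    have h2 : P e0 ≠ 0 := (Finset.mem_filter.1 he0).2
    exact leadingCoeff_ne_zero.2 h2 h1.symm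
  have hdeg : ∀ k ∈ Z.support, (P (D - k)).degree = k := by
    intro k hk
    have hkD : k ≤ D := by
      by_contra h
      exact (mem_support_iff.1 hk) (hZc' k h)
    have h1 : (P (D - k)).coeff k ≠ 0 := by
      rw [← hZc k hkD]
      exact mem_support_iff.1 hk
    have h2 : P (D - k) ≠ 0 := by
      intro h
      rw [h, coeff_zero] at h1
      exact h1 rfl
    have h3 := hle _ h2
    have h4 := le_natDegree_of_ne_zero h1
    rw [degree_eq_natDegree h2]
    have h5 : (P (D - k)).natDegree = k := by omega
    rw [h5]
  let S : Polynomial.Sequence K :=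
    { elems' := fun k => if k ∈ Z.support then P (D - k) else X ^ k
      degree_eq' := by
        intro k
        split_ifs with h
        · exact hdeg k h
        · exact degree_X_pow k }
  have hlin := S.linearIndependent
  have hlin2 : LinearIndependent K (fun k : Z.support => P (D - k)) := by
    have h1 := hlin.comp (fun k : Z.support => (k : ℕ)) Subtype.val_injective
    have h2 : (fun k : Z.support => P (D - k)) = (⇑S ∘ fun k : Z.support => (k : ℕ)) := by
      funext k
      show P (D - k) = if (k : ℕ) ∈ Z.support then P (D - k) else X ^ (k : ℕ)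
      rw [if_pos k.2]
    rw [h2]
    exact h1
  have hcard : Z.support.card ≤ Fintype.card κ := by
    have h1 := linearIndependent_le_span' (fun k : Z.support => P (D - k)) hlin2
      (Set.range Q) (by
        rintro x ⟨k, rfl⟩
        exact Submodule.sum_mem _ fun a _ =>
          Submodule.smul_mem _ _ (Submodule.subset_span ⟨a, rfl⟩))
    rw [Cardinal.mk_fintype] at h1
    have h2 : Fintype.card Z.support ≤ Fintype.card (Set.range Q) := by exact_mod_cast h1
    have h3 : Fintype.card (Set.range Q) ≤ Fintype.card κ := Fintype.card_range_le Q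
    rw [Fintype.card_coe] at h2
    exact h2.trans h3
  apply hZne
  refine descartesK Z (Finset.univ.image c) ?_ ?_ ?_
  · intro x hx
    obtain ⟨i, _, rfl⟩ := Finset.mem_image.1 hx
    exact hpos i
  · intro x hx
    obtain ⟨i, _, rfl⟩ := Finset.mem_image.1 hx
    have h1 := congrFun hb0 i
    simp only [Matrix.vecMul, dotProduct, Matrix.of_apply, Pi.zero_apply] at h1
    have h2 := congrArg (fun p : K[X] => p.coeff D) h1
    simp only [finsetSum_coeff, coeff_zero] at h2
    rw [← h2]
    simp only [Z, eval_finsetSum, eval_monomial]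
    have h3 : ∀ a, (b a * (Q a).comp (C (c i : K) * X)).coeff D =
        ∑ k ∈ Finset.range (D + 1), (b a).coeff (D - k) * (Q a).coeff k * (c i : K) ^ k := by
      intro a
      rw [coeff_mul, Finset.Nat.sum_antidiagonal_eq_sum_range_succ_mk]
      rw [← Finset.sum_range_reflect]
      refine Finset.sum_congr rfl fun k hk => ?_
      rw [Finset.mem_range] at hk
      simp only [comp_C_mul_X_coeff]
      rw [show D + 1 - 1 - k = D - k by omega, show D - (D - k) = k by omega]
      ring
    simp only [h3]
    rw [Finset.sum_comm]
    refine Finset.sum_congr rfl fun k _ => ?_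
    simp only [P, finsetSum_coeff, coeff_smul, smul_eq_mul]
    rw [Finset.sum_mul]
  · rw [Finset.card_image_of_injective _ hc, Finset.card_univ]
    exact hcard

end Pool.Agent.Helper72.SF
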