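import Pool.Agent.Helper72.SF.Grad
import Pool.Agent.Helper72.SF.Vander
import Pool.Agent.Helper16.KAL.Defs

/-!
# The hybrid step
-/

set_option autoImplicit false

namespace Pool.Agent.Helper72.SF

open MvPolynomial

theorem KB.of_kal {n : ℕ} {B : Finset (Fin n)} {ρ : ℕ} {f : MvPolynomial (Fin n) ℂ}
    (h : Pool.Agent.Helper16.KAL.KB B ρ f) : KB B ρ f := by
  classical
  obtain ⟨M, c, hc, hf, hρ⟩ := h
  refine ⟨Finset.univ.image c, ?_, ?_, ?_⟩
  · intro g hg
    obtain ⟨k, _, rfl⟩ := Finset.mem_image.1 hg
    rw [mem_supported]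
    intro i hi hiB
    exact Finset.disjoint_left.1 (hc k) hi (by simpa using hiB)
  · rw [Finset.coe_image, Finset.coe_univ, Set.image_univ]
    exact hf
  · intro T hT hind
    by_contra hcon
    push Not at hcon
    have h1 : ρ + 1 ≤ Fintype.card T := by
      rw [Fintype.card_coe]
      omega
    obtain ⟨e⟩ := Function.Embedding.nonempty_of_card_le
      (α := Fin (ρ + 1)) (β := T) (by rw [Fintype.card_fin]; exact h1)
    have h2 : ∀ x : T, ∃ k, c k = x := by
      intro x
      obtain ⟨k, _, hk⟩ := Finset.mem_image.1 (hT x.2)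
      exact ⟨k, hk⟩
    choose s hs using h2
    apply hρ (fun i => s (e i))
    have h3 := hind.comp e e.injective
    have h4 : (fun i => c (s (e i))) = (fun g : T => (g : MvPolynomial (Fin n) ℂ)) ∘ e := by
      funext i
      exact hs (e i)
    rw [h4]
    exact h3

theorem key {n q : ℕ} {B : Finset (Fin n)} {ρ : ℕ} {f : MvPolynomial (Fin n) ℂ} (hKB : KB B ρ f)
    (hq : ρ + B.card ≤ q) (y' : Fin n → MvPolynomial (Fin q) ℂ) (hne : part B y' f ≠ 0) :
    ∃ y : ℂ, aeval (fun i : B => Pool.Agent.Helper16.KAL.lin q y (i : Fin n)) (part B y' f) ≠ 0 := by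
  classical
  let S := MvPolynomial (Fin q) ℂ
  let K := FractionRing S
  have hinj : Function.Injective (algebraMap S K) := IsFractionRing.injective S K
  obtain ⟨v₀, hv₀, hv0₀⟩ := hKB.ker hq (fun k => pderiv k) y'
  let e : B ≃ Fin B.card := B.equivFin
  let v : B → Fin q → S := fun a => v₀ (e a)
  have hv : LinearIndependent S v := hv₀.comp e e.injective
  have hv0 : ∀ a β, ∑ k, v a k * pderiv k ((part B y' f).coeff β) = 0 := fun a β => hv0₀ (e a) β
  let Q : B → Polynomial K := fun a =>
    ∑ k : Fin q, Polynomial.monomial ((k : ℕ) + 1) (algebraMap S K (v a k))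
  have hQ : LinearIndependent K Q := by
    have hvK : LinearIndependent K (fun a k => algebraMap S K (v a k)) := by
      rw [← LinearIndependent.iff_fractionRing S K]
      rw [Fintype.linearIndependent_iff] at hv ⊢
      intro g hg i
      refine hv g ?_ i
      funext k
      apply hinj
      have h1 := congrFun hg k
      simp only [Finset.sum_apply, Pi.zero_apply, Algebra.smul_def] at h1
      simp only [Finset.sum_apply, Pi.smul_apply, smul_eq_mul, Pi.zero_apply, map_sum, map_mul,
        map_zero]
      exact h1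
    rw [Fintype.linearIndependent_iff] at hvK ⊢
    intro g hg i
    refine hvK g ?_ i
    funext k
    have h1 := congrArg (fun p : Polynomial K => p.coeff ((k : ℕ) + 1)) hg
    simp only [Q, Polynomial.finsetSum_coeff, Polynomial.coeff_smul, Polynomial.coeff_monomial,
      Polynomial.coeff_zero, smul_eq_mul] at h1
    simp only [Finset.sum_apply, Pi.smul_apply, smul_eq_mul, Pi.zero_apply]
    rw [← h1]
    refine Finset.sum_congr rfl fun a _ => ?_
    congr 1
    rw [Finset.sum_eq_single k]
    · simp
    · intro k' _ hk'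
      rw [if_neg]
      intro h2
      apply hk'
      exact Fin.ext (by omega)
    · simp
  have hdet := det_scale_ne_zero Q hQ (fun i : B => ((i : Fin n) : ℕ) + 1)
    (fun i j h => Subtype.ext (Fin.ext (by simpa using h))) (fun i => Nat.succ_pos _)
  obtain ⟨y, hy⟩ : ∃ y : ℂ, ((Matrix.of fun a (i : B) =>
      (Q a).comp (Polynomial.C ((((i : Fin n) : ℕ) + 1 : ℕ) : K) * Polynomial.X)).det).eval
        (algebraMap ℂ K y) ≠ 0 := by
    by_contra hcon
    push Not at hcon
    apply hdet
    refine Polynomial.eq_zero_of_infinite_isRoot _ ?_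
    refine Set.Infinite.mono (s := Set.range (algebraMap ℂ K)) ?_ ?_
    · rintro _ ⟨y, rfl⟩
      exact hcon y
    · exact Set.infinite_range_of_injective (algebraMap ℂ K).injective
  refine ⟨y, ?_⟩
  intro h0
  apply hne
  let D : B → Derivation ℤ S S := fun a =>
    (∑ k, v a k • (pderiv k : Derivation ℂ S S)).restrictScalars ℤ
  have hD : ∀ a s, D a s = ∑ k, v a k * pderiv k s := by
    intro a s
    have h1 : ∀ T : Finset (Fin q), (∑ k ∈ T, v a k • (pderiv k : Derivation ℂ S S)) s =
        ∑ k ∈ T, v a k * pderiv k s := by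
      intro T
      induction T using Finset.induction_on with
      | empty => simp
      | insert k T hk ih => rw [Finset.sum_insert hk, Finset.sum_insert hk, Derivation.add_apply,
          ih, Derivation.smul_apply, smul_eq_mul]
    exact h1 Finset.univ
  refine jac D (fun i : B => Pool.Agent.Helper16.KAL.lin q y (i : Fin n)) ?_ (part B y' f) ?_ h0
  · intro hdet0
    apply hy
    have h1 : ∀ a (i : B), (((Q a).comp (Polynomial.C ((((i : Fin n) : ℕ) + 1 : ℕ) : K) *
        Polynomial.X)).eval (algebraMap ℂ K y)) =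
        algebraMap S K (D a (Pool.Agent.Helper16.KAL.lin q y (i : Fin n))) := by
      intro a i
      rw [hD, Polynomial.eval_comp]
      simp only [Q, Polynomial.eval_finsetSum, Polynomial.eval_monomial, Polynomial.eval_mul,
        Polynomial.eval_C, Polynomial.eval_X, map_sum, map_mul]
      refine Finset.sum_congr rfl fun k _ => ?_
      have h2 : pderiv k (Pool.Agent.Helper16.KAL.lin q y (i : Fin n)) =
          C ((((((i : Fin n) : ℕ) + 1 : ℕ) : ℂ) * y) ^ ((k : ℕ) + 1)) := by
        rw [Pool.Agent.Helper16.KAL.lin, map_sum, Finset.sum_eq_single k]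
        · rw [pderiv_C_mul, pderiv_X_self, mul_one]
        · intro j _ hj
          rw [pderiv_C_mul, pderiv_X_of_ne hj, mul_zero]
        · simp
      rw [h2]
      congr 1
      have h3 : algebraMap S K (C ((((((i : Fin n) : ℕ) + 1 : ℕ) : ℂ) * y) ^ ((k : ℕ) + 1))) =
          algebraMap ℂ K ((((((i : Fin n) : ℕ) + 1 : ℕ) : ℂ) * y) ^ ((k : ℕ) + 1)) := by
        rw [IsScalarTower.algebraMap_apply ℂ S K]
        rfl
      rw [h3, map_pow, map_mul, map_natCast]
    have h4 := congrArg (algebraMap S K) hdet0
    rw [RingHom.map_det, map_zero] at h4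
    have h5 := RingHom.map_det (Polynomial.evalRingHom (algebraMap ℂ K y))
      (Matrix.of fun a (i : B) =>
        (Q a).comp (Polynomial.C ((((i : Fin n) : ℕ) + 1 : ℕ) : K) * Polynomial.X))
    rw [Polynomial.coe_evalRingHom] at h5
    rw [h5, ← h4]
    congr 1
    ext a i
    simp only [RingHom.mapMatrix_apply, Matrix.map_apply, Matrix.of_apply,
      Polynomial.coe_evalRingHom]
    exact h1 a i
  · intro a β
    exact (hD a _).trans (hv0 a β)

end Pool.Agent.Helper72.SF
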